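import Pool.Agent.helper79.SX.Spec

set_option autoImplicit false

open Finset ArithmeticFunction

namespace Pool.Agent.SX

theorem ABL_aux (x c : ℕ → ℝ) (ζ Z α κ : ℝ) (G : ℝ → ℝ) (hα : 0 ≤ α) (hκ : 0 ≤ κ)
    (hG : AntitoneOn G (Set.Icc ζ Z)) (_hG0 : ∀ s ∈ Set.Icc ζ Z, 0 ≤ G s) (F : Finset ℕ) :
    StrictMonoOn x (F : Set ℕ) → (∀ i ∈ F, ζ ≤ x i ∧ x i ≤ Z) →
    (∀ i ∈ F, ∑ j ∈ F.filter (fun j => j ≤ i), c j ≤ α * (x i - ζ) + κ) →
    ∀ T, (∀ i ∈ F, x i ≤ T) → ζ ≤ T → T ≤ Z →
      ∑ i ∈ F, c i * G (x i) + (α * (T - ζ) + κ - ∑ i ∈ F, c i) * G T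
        ≤ α * (∫ s in ζ..T, G s) + κ * G ζ ∧ ∑ i ∈ F, c i ≤ α * (T - ζ) + κ := by
  have hint : ∀ s t : ℝ, ζ ≤ s → s ≤ t → t ≤ Z →
      (t - s) * G t ≤ ∫ r in s..t, G r := by
    intro s t hs hst ht
    have hint : IntervalIntegrable G MeasureTheory.volume s t := by
      apply AntitoneOn.intervalIntegrable
      rw [Set.uIcc_of_le hst]
      exact hG.mono (Set.Icc_subset_Icc hs ht)
    have := intervalIntegral.integral_mono_on hst (intervalIntegrable_const (c := G t)) hint
      (fun r hr => hG ⟨hs.trans hr.1, hr.2.trans ht⟩ ⟨hs.trans hst, ht⟩ hr.2)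
    rw [intervalIntegral.integral_const, smul_eq_mul] at this
    exact this
  induction F using Finset.induction_on_max with
  | empty =>
    intro _ _ _ T _ h1 h2
    have e1 := hint ζ T le_rfl h1 h2
    have e2 : G T ≤ G ζ := hG ⟨le_rfl, h1.trans h2⟩ ⟨h1, h2⟩ h1
    simp only [sum_empty, zero_add, sub_zero]
    constructor
    · have e3 := mul_le_mul_of_nonneg_left e1 hα
      have e4 := mul_le_mul_of_nonneg_left e2 hκ
      nlinarith
    · have := mul_nonneg hα (sub_nonneg.2 h1)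
      linarith
  | insert a F hmax ih =>
    intro hx hb hc T hT h1 h2
    have ha : a ∉ F := fun h => lt_irrefl _ (hmax a h)
    have hxa := hb a (mem_insert_self _ _)
    have hTa := hT a (mem_insert_self _ _)
    have hlt : ∀ i ∈ F, x i ≤ x a := fun i hi =>
      (hx (by simpa using Or.inr hi) (by simp) (hmax i hi)).le
    have ih' := ih (hx.mono (by intro i hi; simpa using Or.inr hi))
      (fun i hi => hb i (mem_insert_of_mem hi))
      (fun i hi => by
        have := hc i (mem_insert_of_mem hi)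
        rwa [filter_insert, if_neg (not_le.2 (hmax i hi))] at this)
      (x a) hlt hxa.1 hxa.2
    have hca : ∑ j ∈ insert a F, c j ≤ α * (x a - ζ) + κ := by
      have := hc a (mem_insert_self _ _)
      rwa [filter_true_of_mem] at this
      intro j hj
      rcases mem_insert.1 hj with h | h
      · exact h.le
      · exact (hmax j h).le
    have hint1 := hint (x a) T hxa.1 hTa h2
    have hGT : G T ≤ G (x a) := hG ⟨hxa.1, hxa.2⟩ ⟨h1, h2⟩ hTa
    have hsplit : (∫ s in ζ..T, G s) = (∫ s in ζ..(x a), G s) + ∫ s in (x a)..T, G s := by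
      rw [intervalIntegral.integral_add_adjacent_intervals]
      · apply AntitoneOn.intervalIntegrable
        rw [Set.uIcc_of_le hxa.1]
        exact hG.mono (Set.Icc_subset_Icc le_rfl hxa.2)
      · apply AntitoneOn.intervalIntegrable
        rw [Set.uIcc_of_le hTa]
        exact hG.mono (Set.Icc_subset_Icc hxa.1 h2)
    rw [sum_insert ha] at hca
    rw [sum_insert ha, sum_insert ha, hsplit]
    constructor
    · have e1 : (α * (x a - ζ) + κ - (c a + ∑ i ∈ F, c i)) * G T
          ≤ (α * (x a - ζ) + κ - (c a + ∑ i ∈ F, c i)) * G (x a) :=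
        mul_le_mul_of_nonneg_left hGT (by linarith)
      have e2 := mul_le_mul_of_nonneg_left hint1 hα
      have e3 := ih'.1
      have e4 : (α * (T - ζ) + κ - (c a + ∑ i ∈ F, c i)) * G T
          = (α * (x a - ζ) + κ - (c a + ∑ i ∈ F, c i)) * G T + α * ((T - x a) * G T) := by ring
      have e5 : (α * (x a - ζ) + κ - (c a + ∑ i ∈ F, c i)) * G (x a)
          = (α * (x a - ζ) + κ - ∑ i ∈ F, c i) * G (x a) - c a * G (x a) := by ring
      rw [e4]
      rw [e5] at e1
      linarith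
    · have := mul_le_mul_of_nonneg_left hTa hα
      nlinarith

theorem ABL : ABL_stmt := by
  intro F x c ζ Z α κ G hζ hα hκ hx hb hG hG0 hc
  obtain ⟨h1, h2⟩ := ABL_aux x c ζ Z α κ G hα hκ hG hG0 F hx hb hc Z (fun i hi => (hb i hi).2) hζ le_rfl
  have := mul_nonneg (sub_nonneg.2 h2) (hG0 Z ⟨hζ, le_rfl⟩)
  linarith

end Pool.Agent.SX
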