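import Pool.Agent.helper79.SX.Spec

set_option autoImplicit false

open Finset ArithmeticFunction

namespace Pool.Agent.SX

theorem PCM_frc {β : Type} (n : ℕ) (f : ℕ → β) : frc n f = f n := by
  cases n <;> rfl

theorem PCM_sumF (α : Type) (f : α → ℕ) (k : ℕ → Bool) (l : List α) (acc : ℕ) :
    sumF f k l acc = k (acc + (l.map f).sum) := by
  induction l generalizing acc with
  | nil => rfl
  | cons x l ih =>
    have : sumF f k (x :: l) acc = frc (acc + f x) (sumF f k l) := rfl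
    rw [this, PCM_frc, ih, List.map_cons, List.sum_cons, add_assoc]

theorem PCM_sumR (f : ℕ → ℕ) (k : ℕ → Bool) (n h acc : ℕ) :
    sumR f k n h acc = k (acc + ∑ j ∈ range n, f (h + j)) := by
  induction n generalizing h acc with
  | zero => rfl
  | succ n ih =>
    have : sumR f k (n + 1) h acc = frc (acc + f h) fun acc' => sumR f k n (h + 1) acc' := rfl
    rw [this, PCM_frc, ih, sum_range_succ']
    congr 1
    have : ∀ j, f (h + 1 + j) = f (h + (j + 1)) := fun j => by congr 1; ring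
    simp only [this, Nat.add_zero]
    ring

theorem PCM_cdiv (a b : ℕ) (hb : 0 < b) : (a : ℝ) / b ≤ (cdiv a b : ℕ) := by
  unfold cdiv
  have h1 : a < b * ((a + (b - 1)) / b) + 1 := by
    have := Nat.lt_mul_div_succ (a + (b - 1)) hb
    rw [Nat.mul_add] at this
    omega
  rw [div_le_iff₀ (by exact_mod_cast hb)]
  have h2 : a ≤ (a + (b - 1)) / b * b := by
    rw [mul_comm]; omega
  exact_mod_cast h2

theorem PCM_c1 (b1 b2 b3 : Bool) (x y z : ℕ) (h1 : b1 = true) (h2 : b2 = true) (h3 : b3 = true) :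
    cond (and b1 b2) (cond b3 x y) z = x := by
  subst h1; subst h2; subst h3; rfl

theorem PCM_c2 (b1 b2 b3 : Bool) (x y z : ℕ) (h1 : b1 = true) (h2 : b2 = true) (h3 : b3 = false) :
    cond (and b1 b2) (cond b3 x y) z = y := by
  subst h1; subst h2; subst h3; rfl

theorem PCM_tm1 (U a Y κ : ℕ) (t : ℕ × ℕ × ℕ) (h1 : a ≤ t.1) (h2 : t.1 ≤ Y)
    (h3 : t.2.1 + a + κ ≤ 2 * Y) :
    tm U a Y κ t
      = cdiv (t.2.2 * (Y + 1 - t.1) * dig U (2 * Y - κ - t.2.1)) (2 * (Y + 1) * 1099511627776) :=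
  PCM_c1 _ _ _ _ _ _ (Nat.ble_eq_true_of_le h1) (Nat.ble_eq_true_of_le h2) (Nat.ble_eq_true_of_le h3)

theorem PCM_ble (a b : ℕ) (h : ¬ a ≤ b) : Nat.ble a b = false := by
  rw [← Bool.not_eq_true, Nat.ble_eq]; exact h

theorem PCM_tm2 (U a Y κ : ℕ) (t : ℕ × ℕ × ℕ) (h1 : a ≤ t.1) (h2 : t.1 ≤ Y)
    (h3 : ¬ t.2.1 + a + κ ≤ 2 * Y) :
    tm U a Y κ t = 1152921504606846976 :=
  PCM_c2 _ _ _ _ _ _ (Nat.ble_eq_true_of_le h1) (Nat.ble_eq_true_of_le h2) (PCM_ble _ _ h3)

theorem PCM_tm (U a Y κ : ℕ) (t : ℕ × ℕ × ℕ) (h : tm U a Y κ t < 2 ^ 60) :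
    (a ≤ t.1 → t.1 ≤ Y → t.2.1 + a + κ ≤ 2 * Y) ∧
    2 ^ 44 * (if a ≤ t.1 ∧ t.1 ≤ Y then
      (t.2.2 : ℝ) / 2 ^ 45 * (((Y : ℝ) + 1 - t.1) / (Y + 1)) * ((dig U (2 * Y - κ - t.2.1) : ℝ) / 2 ^ 40)
      else 0) ≤ (tm U a Y κ t : ℝ) := by
  by_cases h1 : a ≤ t.1
  · by_cases h2 : t.1 ≤ Y
    · by_cases h3 : t.2.1 + a + κ ≤ 2 * Y
      · refine ⟨fun _ _ => h3, ?_⟩
        rw [PCM_tm1 U a Y κ t h1 h2 h3, if_pos ⟨h1, h2⟩]
        refine le_trans (le_of_eq ?_) (PCM_cdiv _ _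
          (Nat.mul_pos (Nat.mul_pos (by norm_num) (Nat.succ_pos _)) (by norm_num)))
        generalize dig U (2 * Y - κ - t.2.1) = d
        have : ((Y + 1 - t.1 : ℕ) : ℝ) = (Y : ℝ) + 1 - t.1 := by
          rw [Nat.cast_sub (by omega)]; push_cast; ring
        have e5 : ((1099511627776 : ℕ) : ℝ) = 2 ^ 40 := by norm_num
        rw [Nat.cast_mul, Nat.cast_mul, Nat.cast_mul, Nat.cast_mul, this, e5, Nat.cast_add,
          Nat.cast_one, Nat.cast_ofNat]
        field_simp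
      · exfalso
        rw [PCM_tm2 U a Y κ t h1 h2 h3] at h
        exact absurd h (by norm_num)
    · refine ⟨fun _ h' => absurd h' h2, ?_⟩
      rw [if_neg (fun h => h2 h.2), mul_zero]
      exact Nat.cast_nonneg _
  · refine ⟨fun h' => absurd h' h1, ?_⟩
    rw [if_neg (fun h => h1 h.1), mul_zero]
    exact Nat.cast_nonneg _

theorem PCM : PCM_stmt := by
  refine ⟨PCM_sumF, PCM_sumR, ?_, ?_⟩
  · intro U a Y κ bl hbl
    induction bl with
    | nil => simp [M2]
    | cons t bl ih =>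
      rw [List.map_cons, List.sum_cons] at hbl
      have ih' := ih (by omega)
      have ht := PCM_tm U a Y κ t (by omega)
      constructor
      · intro s hs
        rcases List.mem_cons.1 hs with h | h
        · rw [h]; exact ht.1
        · exact ih'.1 s h
      · have e2 := ih'.2
        unfold M2 at e2 ⊢
        rw [List.map_cons, List.sum_cons, List.map_cons, List.sum_cons, mul_add, Nat.cast_add]
        exact add_le_add ht.2 e2
  · intro num den lam hn hd hc
    unfold chkLam at hc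
    rw [PCM_sumR, Nat.ble_eq] at hc
    have hn' : (0 : ℝ) < num := by exact_mod_cast hn
    have hd' : (0 : ℝ) < den := by exact_mod_cast hd
    rw [Real.log_le_iff_le_exp (by positivity)]
    have h1 : ∑ k ∈ range 15, ((lam : ℝ) / 10 ^ 9) ^ k / (k.factorial : ℝ)
        ≤ Real.exp ((lam : ℝ) / 10 ^ 9) := Real.sum_le_exp_of_nonneg (by positivity) 15
    refine le_trans ?_ h1
    rw [div_le_iff₀ hd']
    have hc' : (num : ℝ) * ((Nat.factorial 14 : ℕ) * 10 ^ 126)
        ≤ (∑ k ∈ range 15, (lam : ℝ) ^ k * 10 ^ (9 * (14 - k)) *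
          ((Nat.factorial 14 / Nat.factorial k : ℕ) : ℝ)) * den := by
      have : num * (Nat.factorial 14 * 10 ^ 126) ≤ (∑ k ∈ range 15, lam ^ k * 10 ^ (9 * (14 - k)) *
          (Nat.factorial 14 / Nat.factorial k)) * den := by
        simpa using hc
      have h2 : ((num * (Nat.factorial 14 * 10 ^ 126) : ℕ) : ℝ) ≤ (((∑ k ∈ range 15, lam ^ k * 10 ^ (9 * (14 - k)) *
          (Nat.factorial 14 / Nat.factorial k)) * den : ℕ) : ℝ) := by exact_mod_cast this
      simpa only [Nat.cast_mul, Nat.cast_pow, Nat.cast_sum, Nat.cast_ofNat] using h2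
    have h3 : ∀ k ∈ range 15, (lam : ℝ) ^ k * 10 ^ (9 * (14 - k)) *
          ((Nat.factorial 14 / Nat.factorial k : ℕ) : ℝ)
        = ((Nat.factorial 14 : ℕ) * 10 ^ 126) * (((lam : ℝ) / 10 ^ 9) ^ k / (k.factorial : ℝ)) := by
      intro k hk
      have hk' : k ≤ 14 := by simpa [Nat.lt_succ_iff] using hk
      rw [Nat.cast_div (Nat.factorial_dvd_factorial hk') (by positivity), div_pow]
      have e1 : (10 : ℝ) ^ 126 = 10 ^ (9 * (14 - k)) * (10 ^ 9) ^ k := by
        rw [← pow_mul, ← pow_add]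
        congr 1
        omega
      rw [e1]
      field_simp
    rw [sum_congr rfl h3, ← mul_sum] at hc'
    have h4 : (0 : ℝ) < (Nat.factorial 14 : ℕ) * 10 ^ 126 := by positivity
    refine le_of_mul_le_mul_left ?_ h4
    linarith

end Pool.Agent.SX
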