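import Pool.Agent.helper79.SX.Spec

set_option autoImplicit false

open Finset ArithmeticFunction

namespace Pool.Agent.SX

open Pool.Agent.Lib.BrunHooley in
theorem BON : BON_stmt := by
  classical
  intro A P Q D K
  set A' := A.filter fun m => (∀ p ∈ D, p ∣ m * (m + 6)) ∧ ∀ p ∈ P, ¬ p ∣ m * (m + 6) with hA'
  let γ : ℕ → ℕ → ℝ := fun m q => if q ∣ m * (m + 6) then 1 else 0
  have h1 : ∀ T : Finset ℕ, (S A P (D ∪ T) : ℝ) = ∑ m ∈ A', ∏ q ∈ T, γ m q := by
    intro T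
    have e : (A.filter fun m => (∀ p ∈ D ∪ T, p ∣ m * (m + 6)) ∧ ∀ p ∈ P, ¬ p ∣ m * (m + 6))
        = A'.filter fun m => ∀ q ∈ T, q ∣ m * (m + 6) := by
      ext m
      simp only [hA', mem_filter, mem_union]
      constructor
      · rintro ⟨h0, h1, h2⟩
        exact ⟨⟨h0, fun p hp => h1 p (Or.inl hp), h2⟩, fun p hp => h1 p (Or.inr hp)⟩
      · rintro ⟨⟨h0, h1, h2⟩, h3⟩
        exact ⟨h0, fun p hp => hp.elim (h1 p) (h3 p), h2⟩
    unfold S
    rw [e, card_filter]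
    push_cast
    refine sum_congr rfl fun m _ => ?_
    simp only [γ, prod_boole]
  have h2 : (S A (P ∪ Q) D : ℝ) = ∑ m ∈ A', ∏ q ∈ Q, (1 - γ m q) := by
    have e : (A.filter fun m => (∀ p ∈ D, p ∣ m * (m + 6)) ∧ ∀ p ∈ P ∪ Q, ¬ p ∣ m * (m + 6))
        = A'.filter fun m => ∀ q ∈ Q, ¬ q ∣ m * (m + 6) := by
      ext m
      simp only [hA', mem_filter, mem_union]
      constructor
      · rintro ⟨h0, h1, h2⟩
        exact ⟨⟨h0, h1, fun p hp => h2 p (Or.inl hp)⟩, fun p hp => h2 p (Or.inr hp)⟩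
      · rintro ⟨⟨h0, h1, h2⟩, h3⟩
        exact ⟨h0, h1, fun p hp => hp.elim (h2 p) (h3 p)⟩
    unfold S
    rw [e, card_filter]
    push_cast
    refine sum_congr rfl fun m _ => ?_
    have : ∀ q, 1 - γ m q = if ¬ q ∣ m * (m + 6) then (1 : ℝ) else 0 := by
      intro q
      simp only [γ]
      by_cases h : q ∣ m * (m + 6) <;> simp [h]
    simp only [this]
    rw [prod_boole]
  have h3 : (∑ k ∈ range (K + 1), (-1 : ℝ) ^ k * ∑ T ∈ powersetCard k Q, (S A P (D ∪ T) : ℝ))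
      = ∑ m ∈ A', ts Q (γ m) K := by
    simp only [h1, ts, es]
    rw [sum_comm (s := A')]
    refine sum_congr rfl fun k _ => ?_
    rw [sum_comm, mul_sum]
  rw [h2, h3, ← sum_sub_distrib, mul_sum]
  refine sum_nonneg fun m _ => ?_
  refine (bonferroni Q (γ m) ?_ ?_ K).1
  · intro p _
    simp only [γ]
    split_ifs <;> norm_num
  · intro p _
    simp only [γ]
    split_ifs <;> norm_num

end Pool.Agent.SX
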