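import Pool.Agent.helper79.SX.Spec

set_option autoImplicit false

open Finset ArithmeticFunction

namespace Pool.Agent.SX

theorem CTB_pow (h : ℕ) (hh : 60 ≤ h) : 4 * h ^ 4 ≤ 2 ^ h := by
  induction h, hh using Nat.le_induction with
  | base => norm_num
  | succ h hh ih =>
    have : (h + 1) ^ 4 ≤ 2 * h ^ 4 := by
      obtain ⟨k, rfl⟩ := Nat.exists_eq_add_of_le hh
      ring_nf
      nlinarith [Nat.zero_le k, Nat.zero_le (k ^ 2), Nat.zero_le (k ^ 3), Nat.zero_le (k ^ 4)]
    calc 4 * (h + 1) ^ 4 ≤ 2 * (4 * h ^ 4) := by linarith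
      _ ≤ 2 * 2 ^ h := by linarith
      _ = 2 ^ (h + 1) := by ring

/-- `log n ≥ 4.85` for `n ≥ 128` -/
theorem CTB_log (n : ℕ) (hn : 128 ≤ n) : (4.85 : ℝ) ≤ Real.log n := by
  have h1 : Real.log (2 ^ 7 : ℝ) ≤ Real.log n := by
    apply Real.log_le_log (by norm_num)
    have : (128 : ℝ) ≤ n := by exact_mod_cast hn
    linarith
  rw [Real.log_pow] at h1
  have := Real.log_two_gt_d9
  push_cast at h1
  linarith

theorem CTB (hX : XSZ_stmt) (hS : SAD_stmt) : CTB_stmt := by
  obtain ⟨-, -, -, -, hV, hV30⟩ := hS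
  refine ⟨?_, ?_, ?_⟩
  · intro n o a Y hn ho hY haY ha hlt hkv
    have hXn := (hX n hn).1
    set h := a * 2 ^ o with hh
    have hVp := (hV h h).1
    have hnR : (128 : ℝ) ≤ n := by exact_mod_cast hn
    have ho2 : 2 ≤ 2 ^ o := by
      calc 2 = 2 ^ 1 := by norm_num
        _ ≤ 2 ^ o := Nat.pow_le_pow_right (by norm_num) ho
    have hh60 : 60 ≤ h := by
      rw [hh]; nlinarith
    have h5 : 5 * h ≤ Y * 2 ^ o := by
      rw [hh]
      calc 5 * (a * 2 ^ o) = 5 * a * 2 ^ o := by ring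
        _ ≤ Y * 2 ^ o := Nat.mul_le_mul_right _ haY
    have hhR : (60 : ℝ) ≤ h := by exact_mod_cast hh60
    have hhpos : (0 : ℝ) < h := by linarith
    have hXV : 0.7 * (n : ℝ) ^ 2 / (h : ℝ) ^ 2 ≤ Xn n * V (Pr h) / 40 := by
      rw [div_le_iff₀ (by positivity)]
      have e1 : (n : ℝ) ^ 2 / 10 * (V (Pr h) * (h : ℝ) ^ 2) ≤ Xn n * (V (Pr h) * (h : ℝ) ^ 2) :=
        mul_le_mul_of_nonneg_right hXn (by positivity)
      have e2 : (n : ℝ) ^ 2 / 10 * 280 ≤ (n : ℝ) ^ 2 / 10 * (V (Pr h) * (h : ℝ) ^ 2) :=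
        mul_le_mul_of_nonneg_left hkv (by positivity)
      nlinarith
    have h2 : 2 ^ h < (n + 1) ^ 2 := by
      have e1 : 2 ^ (5 * h) < (n + 1) ^ 10 :=
        lt_of_le_of_lt (Nat.pow_le_pow_right (by norm_num) h5) hlt
      have e2 : (2 ^ h) ^ 5 < ((n + 1) ^ 2) ^ 5 := by
        rw [← pow_mul, ← pow_mul, mul_comm h 5]
        exact e1
      exact lt_of_pow_lt_pow_left₀ 5 (by positivity) e2
    constructor
    · refine le_trans ?_ hXV
      have e1 : 2 * h ^ 2 ≤ n := by
        have e2 : (2 * h ^ 2) ^ 2 < (n + 1) ^ 2 := by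
          calc (2 * h ^ 2) ^ 2 = 4 * h ^ 4 := by ring
            _ ≤ 2 ^ h := CTB_pow h hh60
            _ < (n + 1) ^ 2 := h2
        have := lt_of_pow_lt_pow_left₀ 2 (by positivity) e2
        omega
      have e1R : 2 * (h : ℝ) ^ 2 ≤ n := by exact_mod_cast e1
      rw [le_div_iff₀ (by positivity)]
      nlinarith
    · refine le_trans ?_ hXV
      -- `h ≤ 2.8854 log (n+1)`
      have hlogn := CTB_log n hn
      have hl2 := Real.log_two_gt_d9
      have e1 : (h : ℝ) * Real.log 2 < 2 * Real.log ((n : ℝ) + 1) := by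
        have : Real.log ((2 : ℝ) ^ h) < Real.log (((n : ℝ) + 1) ^ 2) := by
          apply Real.log_lt_log (by positivity)
          exact_mod_cast h2
        rw [Real.log_pow, Real.log_pow] at this
        exact_mod_cast this
      have e2 : Real.log ((n : ℝ) + 1) ≤ Real.log n + 1 / 128 := by
        have : Real.log ((n : ℝ) + 1) - Real.log n = Real.log (((n : ℝ) + 1) / n) := by
          rw [Real.log_div (by positivity) (by positivity)]
        have e3 : Real.log (((n : ℝ) + 1) / n) ≤ ((n : ℝ) + 1) / n - 1 :=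
          Real.log_le_sub_one_of_pos (by positivity)
        have e4 : ((n : ℝ) + 1) / n - 1 = 1 / n := by field_simp; ring
        have e5 : (1 : ℝ) / n ≤ 1 / 128 := one_div_le_one_div_of_le (by norm_num) hnR
        linarith
      have e3 : (h : ℝ) ≤ 3 * Real.log n := by nlinarith
      have hL : 0 < Real.log n := by linarith
      rw [div_le_div_iff₀ (by positivity) (by positivity)]
      have e4 : (h : ℝ) ^ 2 ≤ 9 * Real.log n ^ 2 := by nlinarith
      have e5 : (n : ℝ) ^ 2 * (h : ℝ) ^ 2 ≤ (n : ℝ) ^ 2 * (9 * Real.log n ^ 2) :=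
        mul_le_mul_of_nonneg_left e4 (by positivity)
      nlinarith [mul_nonneg (sq_nonneg (n : ℝ)) (sq_nonneg (Real.log n))]
  · intro n Y hn hY hlt hkv
    have hXn := (hX n hn).1
    have hVp := (hV 57 57).1
    have hnR : (128 : ℝ) ≤ n := by exact_mod_cast hn
    have hn15 : 2 ^ 15 ≤ n := by
      have e1 : 2 ^ 150 < (n + 1) ^ 10 :=
        lt_of_le_of_lt (Nat.pow_le_pow_right (by norm_num) hY) hlt
      have e2 : (2 ^ 15) ^ 10 < (n + 1) ^ 10 := by
        rw [← pow_mul]; exact e1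
      have := lt_of_pow_lt_pow_left₀ 10 (by positivity) e2
      omega
    have hn15R : (2 : ℝ) ^ 15 ≤ n := by exact_mod_cast hn15
    have hXV : 0.0011 * (n : ℝ) ^ 2 ≤ Xn n * V (Pr 57) / 20 := by
      have e1 : (n : ℝ) ^ 2 / 10 * V (Pr 57) ≤ Xn n * V (Pr 57) :=
        mul_le_mul_of_nonneg_right hXn (by positivity)
      have e2 : (0.22 : ℝ) ≤ V (Pr 57) := by
        by_contra hcon
        push Not at hcon
        nlinarith
      have e3 : (n : ℝ) ^ 2 / 10 * 0.22 ≤ (n : ℝ) ^ 2 / 10 * V (Pr 57) :=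
        mul_le_mul_of_nonneg_left e2 (by positivity)
      nlinarith
    have hlog : (10 : ℝ) ≤ Real.log n := by
      have h1 : Real.log (2 ^ 15 : ℝ) ≤ Real.log n := Real.log_le_log (by norm_num) hn15R
      rw [Real.log_pow] at h1
      have := Real.log_two_gt_d9
      push_cast at h1
      linarith
    constructor
    · refine le_trans ?_ hXV
      nlinarith
    · refine le_trans ?_ hXV
      rw [div_le_iff₀ (by positivity)]
      have : (100 : ℝ) ≤ Real.log n ^ 2 := by nlinarith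
      nlinarith [mul_le_mul_of_nonneg_left this (sq_nonneg (n : ℝ)), sq_nonneg (n : ℝ)]
  · intro n hn
    have hXn := (hX n hn).1
    have hnR : (128 : ℝ) ≤ n := by exact_mod_cast hn
    have hlogn := CTB_log n hn
    rw [hV30]
    have hXV : 0.0107 * (n : ℝ) ^ 2 ≤ Xn n * (5 / 7) * (15 / 100) := by
      nlinarith [sq_nonneg (n : ℝ)]
    constructor
    · refine le_trans ?_ hXV
      nlinarith
    · refine le_trans ?_ hXV
      rw [div_le_iff₀ (by positivity)]
      have : (23 : ℝ) ≤ Real.log n ^ 2 := by nlinarith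
      nlinarith [mul_le_mul_of_nonneg_left this (sq_nonneg (n : ℝ)), sq_nonneg (n : ℝ)]

end Pool.Agent.SX
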